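import Pool.Agent.H49.KL.Cnt1
import Pool.Agent.H94.KL.Geo

/-!
# Counting for case C, part 2 (MP_a7460d_ag, necessity of the class condition)

`count_C`: the leader of a minor of a box `(i',j')` strictly south-east of `(i,j)`, all of whose steps are steps of `σ`: either `σ` is maximal, or
two paths of `σ` are free and one is full, and a second one is full or the box `(i',j')` has defect zero.
-/

set_option autoImplicit false

open Pool.Agent.H30.KL Pool.Agent.H44.KL

namespace Pool.Agent.H49.KL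

variable {n : ℕ} {u v : Equiv.Perm (Fin n)} {i j i' j' : Fin n} {C R G F : Finset (Fin n)}
  {σ μ : Fin n → Fin n}

open Classical in
theorem Dat.split (h : Dat u v i j i' j' C R G F σ μ) (X : Finset (Fin n)) :
    (∑ c ∈ C, (X ∩ pth (NWs u i j ∪ C) σ c).card) +
      (X.filter fun x => ∀ c ∈ C, x ∉ pth (NWs u i j ∪ C) σ c).card = X.card := by
  rw [← Finset.card_biUnion]
  · rw [← Finset.card_union_of_disjoint]
    · congr 1
      ext x
      rw [Finset.mem_union, Finset.mem_biUnion, Finset.mem_filter]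
      constructor
      · rintro (⟨c, hc, h1⟩ | ⟨h1, -⟩)
        · exact (Finset.mem_inter.1 h1).1
        · exact h1
      · intro hx
        by_cases h1 : ∃ c ∈ C, x ∈ pth (NWs u i j ∪ C) σ c
        · obtain ⟨c, hc, h2⟩ := h1
          exact Or.inl ⟨c, hc, Finset.mem_inter.2 ⟨hx, h2⟩⟩
        · push Not at h1
          exact Or.inr ⟨hx, h1⟩
    · rw [Finset.disjoint_left]
      intro x hx hx'
      obtain ⟨c, hc, h1⟩ := Finset.mem_biUnion.1 hx
      exact (Finset.mem_filter.1 hx').2 c hc (Finset.mem_inter.1 h1).2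
  · intro c hc c' hc' hne
    rw [Function.onFun, Finset.disjoint_left]
    intro x hx hx'
    exact hne (h.inj hc hc' (Finset.mem_inter.1 hx).2 (Finset.mem_inter.1 hx').2)

open Classical in
theorem Dat.sum (h : Dat u v i j i' j' C R G F σ μ) :
    G.card + (C.filter fun c => (i' ≤ u c ∧ en (NWs u i j ∪ C) σ c ≤ j') ∧
      ¬ Free u (NWs u i j ∪ C) σ i' j' G F μ c).card +
      ((NWs u i' j').filter fun x => (∀ c ∈ C, x ∉ pth (NWs u i j ∪ C) σ c) ∧ x ∉ G).card ≤
    rk u i' j' + (C.filter fun c => Full u (NWs u i j ∪ C) σ i' j' G μ c).card := by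
  have h1 := Finset.sum_le_sum (fun c (hc : c ∈ C) => h.one hc)
  rw [Finset.sum_add_distrib, Finset.sum_add_distrib, ← Finset.card_filter,
    ← Finset.card_filter] at h1
  have h2 := h.split G
  have h3 := h.split (NWs u i' j')
  rw [card_NWs] at h3
  have h4 : (G.filter fun x => ∀ c ∈ C, x ∉ pth (NWs u i j ∪ C) σ c).card +
      ((NWs u i' j').filter fun x => (∀ c ∈ C, x ∉ pth (NWs u i j ∪ C) σ c) ∧ x ∉ G).card =
      ((NWs u i' j').filter fun x => ∀ c ∈ C, x ∉ pth (NWs u i j ∪ C) σ c).card := by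
    rw [← Finset.card_union_of_disjoint]
    · congr 1
      ext x
      simp only [Finset.mem_union, Finset.mem_filter]
      constructor
      · rintro (⟨h5, h6⟩ | ⟨h5, h6, -⟩)
        · refine ⟨mem_NWs.2 ⟨h.G_lt h5, ?_⟩, h6⟩
          have h7 := h.fix h5 h6
          have h8 := h.hL.mt.mem h5
          rw [h7] at h8
          exact h.F_le h8
        · exact ⟨h5, h6⟩
      · rintro ⟨h5, h6⟩
        by_cases h7 : x ∈ G
        · exact Or.inl ⟨h7, h6⟩
        · exact Or.inr ⟨h5, h6, h7⟩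
    · rw [Finset.disjoint_left]
      intro x hx hx'
      exact (Finset.mem_filter.1 hx').2.2 (Finset.mem_filter.1 hx).1
  omega

/-- the path of a full path, as a path of `μ` -/
theorem Dat.ptμ (h : Dat u v i j i' j' C R G F σ μ) {c : Fin n}
    (hf : Full u (NWs u i j ∪ C) σ i' j' G μ c) :
    Pt u G μ (pth (NWs u i j ∪ C) σ c) c (en (NWs u i j ∪ C) σ c) := by
  have h0 := pt_pth h.hσ c
  refine ⟨h0.hc, h0.hr, h0.ge, h0.le, h0.mono, ?_, ?_, ?_⟩
  · intro x hx hne
    have h1 := h0.sub x hx hne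
    have h2 := hf.2.2 x hx hne
    rw [h2.2]
    exact ⟨h2.1, h1.2⟩
  · intro x hx hne
    obtain ⟨y, hy, h1, h2⟩ := h0.back x hx hne
    exact ⟨y, hy, h1, by rw [(hf.2.2 y hy h1).2, h2]⟩
  · intro x hx y hy hxy
    have h1 : x ≠ en (NWs u i j ∪ C) σ c := by
      intro h2
      exact absurd (h0.le y hy) (not_le.2 (h2 ▸ hxy))
    rw [(hf.2.2 x hx h1).2]
    exact h0.next x hx y hy hxy

/-- the points of the rectangle are not in `G` and not on the paths -/
theorem Dat.rect (h : Dat u v i j i' j' C R G F σ μ) {c₀ : Fin n} (hc₀ : c₀ ∈ C)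
    (hf : Full u (NWs u i j ∪ C) σ i' j' G μ c₀) {x : Fin n} (h1 : j < x) (h2 : x ≤ j')
    (h3 : i' ≤ u x) (h4 : u x < i) :
    x ∈ NWs u i' j' ∧ (∀ c ∈ C, x ∉ pth (NWs u i j ∪ C) σ c) ∧ x ∉ G := by
  have hout : ∀ c ∈ C, x ∉ pth (NWs u i j ∪ C) σ c := by
    intro c hc hx
    by_cases h5 : x = c
    · exact absurd (h.cj hc).1 (not_le.2 (h5 ▸ h1))
    · by_cases h6 : x = en (NWs u i j ∪ C) σ c
      · exact absurd (h.rj (h.enR hc)).2 (not_le.2 (h6 ▸ h4))
      · exact absurd (mem_NWs.1 (h.inner hx h5 h6)).1 (not_le.2 h1)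
  refine ⟨mem_NWs.2 ⟨h2, h3⟩, hout, fun hG => ?_⟩
  have hfix := h.fix hG hout
  have hP := h.ptμ hf
  have hcx : c₀ < x := lt_of_le_of_lt (h.cj hc₀).1 h1
  have hxr : x < en (NWs u i j ∪ C) σ c₀ := lt_of_le_of_lt h2 hf.2.1
  obtain ⟨p, hp, hpr, hpx, hxp⟩ := hP.exists_p hcx hxr (hout c₀ hc₀)
  have h5 := above_of_max h.hL.mt h.hL.max hP hG hfix (hout c₀ hc₀)
    (lt_of_lt_of_le hf.1 h3) hp hpr hpx hxp
  have h6 := (hP.sub p hp hpr).2.1
  have h7 : μ p = en (NWs u i j ∪ C) σ c₀ := by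
    by_contra h8
    have h9 : μ p ≠ c₀ := fun h10 => absurd (hcx.trans hxp) (by rw [h10]; exact lt_irrefl _)
    exact absurd (mem_NWs.1 (h.inner h6 h9 h8)).1 (not_le.2 (h1.trans hxp))
  rw [h7] at h5
  exact absurd ((h.rj (h.enR hc₀)).2.trans_lt (h5.trans h4)) (lt_irrefl _)

/-- if `A ⊆ G`, `μ = σ` on `A` and the rest is fixed, `σ` is maximal -/
theorem Dat.maxσ (h : Dat u v i j i' j' C R G F σ μ)
    (hall : ∀ c ∈ C, Full u (NWs u i j ∪ C) σ i' j' G μ c)
    (hN : ∀ x ∈ NWs u i j, (∀ c ∈ C, x ∉ pth (NWs u i j ∪ C) σ c) → x ∈ G) :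
    ∀ t, Mt u (NWs u i j ∪ C) (NWs u i j ∪ R) t → ¬ Lt u (NWs u i j ∪ C) σ t := by
  classical
  intro t ht hlt
  have hAG : ∀ x ∈ NWs u i j ∪ C, x ∈ G ∧ μ x = σ x := by
    intro x hx
    by_cases h1 : ∃ c ∈ C, x ∈ pth (NWs u i j ∪ C) σ c
    · obtain ⟨c, hc, h2⟩ := h1
      exact (hall c hc).2.2 x h2 fun h3 => h.enA hc (h3 ▸ hx)
    · push Not at h1
      have h2 : x ∈ G := by
        rcases Finset.mem_union.1 hx with h3 | h3
        · exact hN x h3 h1
        · exact absurd (self_mem h.hσ x) (h1 x h3)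
      refine ⟨h2, ?_⟩
      rw [h.fix h2 h1]
      by_contra h3
      obtain ⟨c, hc, h4⟩ := h.cover hx (Ne.symm h3)
      exact h1 c hc h4
  have hGA : ∀ y ∈ G, y ∉ NWs u i j ∪ C → μ y = y := by
    intro y hy hyA
    by_contra h1
    exact hyA (h.hsub y hy h1).1
  have hRj : ∀ r ∈ R, j' < r := by
    intro r hr
    obtain ⟨a, ha, hab⟩ := h.hσ.surj (Finset.mem_union_right _ hr)
    have h1 : σ a ≠ a := fun h2 => h.rA hr (by rw [← hab, h2]; exact ha)
    obtain ⟨c, hc, h2⟩ := h.cover ha h1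
    have h3 : a ≠ en (NWs u i j ∪ C) σ c := fun h4 => h.enA hc (h4 ▸ ha)
    have h4 := (pth_sub h.hσ h2 h3).2.1
    rw [hab] at h4
    have h5 : r = en (NWs u i j ∪ C) σ c := by
      by_contra h6
      exact h.rA hr (pth_sub h.hσ h4 h6).1
    rw [h5]
    exact (hall c hc).2.1
  have hM : Mt u G F (fun y => if y ∈ NWs u i j ∪ C then t y else y) := by
    apply Mt.of_surj h.hL.mt.card
    · intro b hb
      obtain ⟨a, ha, hab⟩ := h.hL.mt.surj hb
      by_cases h1 : b ∈ NWs u i j ∪ R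
      · obtain ⟨a', ha', hab'⟩ := ht.surj h1
        exact ⟨a', (hAG a' ha').1, by rw [if_pos ha', hab']⟩
      · by_cases h2 : a ∈ NWs u i j ∪ C
        · exfalso
          apply h1
          rw [← hab, (hAG a h2).2]
          exact h.hσ.mem h2
        · have h3 := hGA a ha h2
          refine ⟨a, ha, ?_⟩
          rw [if_neg h2, ← hab, h3]
    · intro a ha hne
      by_cases h1 : a ∈ NWs u i j ∪ C
      · simp only [if_pos h1] at hne ⊢
        exact ht.up a h1 hne
      · simp only [if_neg h1] at hne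
        exact absurd rfl hne
  refine h.hL.max _ hM ?_
  obtain ⟨d, hd, h1, h2⟩ := hlt
  refine ⟨d, (hAG d hd).1, fun y hy hdy => ?_, ?_⟩
  · by_cases h3 : y ∈ NWs u i j ∪ C
    · simp only [if_pos h3]
      rw [h1 y h3 hdy, (hAG y h3).2]
    · simp only [if_neg h3]
      exact (hGA y hy h3).symm
  · simp only [if_pos hd]
    rw [(hAG d hd).2]
    exact h2

theorem count_C (hC : C ⊆ SWs u i j) (hR : R ⊆ NEs u i j) (hm : C.card = R.card)
    (hg : rk u i j + C.card = rk v i j + 1) (huv : BruhatLE u v) (hI : Irr u v i j C R)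
    (hi : i' < i) (hj : j < j') (hσ : Mt u (NWs u i j ∪ C) (NWs u i j ∪ R) σ)
    (hL : Ldr u v i' j' G F μ)
    (hsub : ∀ y ∈ G, μ y ≠ y → y ∈ NWs u i j ∪ C ∧ μ y = σ y) :
    (∀ t, Mt u (NWs u i j ∪ C) (NWs u i j ∪ R) t → ¬ Lt u (NWs u i j ∪ C) σ t) ∨
    ((∃ c₁ ∈ C, ∃ c₂ ∈ C, c₁ ≠ c₂ ∧ Free u (NWs u i j ∪ C) σ i' j' G F μ c₁ ∧
        Free u (NWs u i j ∪ C) σ i' j' G F μ c₂) ∧
      ∃ c ∈ C, Full u (NWs u i j ∪ C) σ i' j' G μ c ∧
        ((∃ c' ∈ C, c' ≠ c ∧ Full u (NWs u i j ∪ C) σ i' j' G μ c') ∨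
          rk v i' j' = rk u i' j')) := by
  classical
  have h : Dat u v i j i' j' C R G F σ μ := ⟨hC, hR, hi, hj, hσ, hL, hsub⟩
  set full := C.filter fun c => Full u (NWs u i j ∪ C) σ i' j' G μ c with hfull
  set nf := C.filter fun c => (i' ≤ u c ∧ en (NWs u i j ∪ C) σ c ≤ j') ∧
    ¬ Free u (NWs u i j ∪ C) σ i' j' G F μ c with hnf
  set out := (NWs u i' j').filter fun x => (∀ c ∈ C, x ∉ pth (NWs u i j ∪ C) σ c) ∧ x ∉ G with hout
  set rect := Finset.univ.filter fun x => j < x ∧ x ≤ j' ∧ i' ≤ u x ∧ u x < i with hrect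
  have hsum := h.sum
  rw [← hfull, ← hnf, ← hout] at hsum
  have hGc := hL.card
  have hle : rk u i' j' ≤ rk v i' j' := huv i' j'
  -- a full path exists
  have hex : 0 < full.card := by omega
  obtain ⟨c₀, hc₀⟩ := Finset.card_pos.1 hex
  rw [hfull, Finset.mem_filter] at hc₀
  have hsubr : rect ⊆ out := by
    intro x hx
    rw [hrect, Finset.mem_filter] at hx
    obtain ⟨-, h1, h2, h3, h4⟩ := hx
    rw [hout, Finset.mem_filter]
    exact h.rect hc₀.1 hc₀.2 h1 h2 h3 h4
  have hrc := Finset.card_le_card hsubr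
  have hru := Pool.Agent.H94.KL.rect_u u hi.le hj.le
  rw [← hrect] at hru
  have hrv := Pool.Agent.H94.KL.rect_v v hi.le hj.le
  -- the numbers of the types
  set S1 := C.filter fun c => u c < i' with hS1
  set S2 := C.filter fun c => j' < en (NWs u i j ∪ C) σ c with hS2
  set n00 := C.filter fun c => i' ≤ u c ∧ en (NWs u i j ∪ C) σ c ≤ j' with hn00
  have hS1c : S1.card = (C.filter fun c => c ≤ j ∧ u c < i').card := by
    congr 1
    ext c
    rw [hS1, Finset.mem_filter, Finset.mem_filter]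
    exact ⟨fun h1 => ⟨h1.1, (h.cj h1.1).1, h1.2⟩, fun h1 => ⟨h1.1, h1.2.2⟩⟩
  have hS2c : S2.card ≤ (R.filter fun r => j' < r ∧ i ≤ u r).card := by
    refine Finset.card_le_card_of_injOn (en (NWs u i j ∪ C) σ) ?_ ?_
    · intro c hc
      rw [hS2, Finset.mem_coe, Finset.mem_filter] at hc
      exact Finset.mem_coe.2 (Finset.mem_filter.2 ⟨h.enR hc.1, hc.2, (h.rj (h.enR hc.1)).2⟩)
    · intro c hc c' hc' hcc
      rw [hS2, Finset.mem_coe, Finset.mem_filter] at hc hc'
      refine h.inj hc.1 hc'.1 (en_mem h.hσ c) ?_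
      rw [hcc]
      exact en_mem h.hσ c'
  have hfS : full ⊆ S1 ∩ S2 := by
    intro c hc
    rw [hfull, Finset.mem_filter] at hc
    exact Finset.mem_inter.2 ⟨Finset.mem_filter.2 ⟨hc.1, hc.2.1⟩, Finset.mem_filter.2 ⟨hc.1, hc.2.2.1⟩⟩
  have hfSc := Finset.card_le_card hfS
  have hUI := Finset.card_union_add_card_inter S1 S2
  have hCc : n00.card + (S1 ∪ S2).card = C.card := by
    rw [← Finset.card_union_of_disjoint]
    · congr 1
      ext c
      simp only [hn00, hS1, hS2, Finset.mem_union, Finset.mem_filter]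
      constructor
      · rintro (h1 | h1 | h1) <;> exact h1.1
      · intro h1
        by_cases h2 : u c < i'
        · exact Or.inr (Or.inl ⟨h1, h2⟩)
        · by_cases h3 : j' < en (NWs u i j ∪ C) σ c
          · exact Or.inr (Or.inr ⟨h1, h3⟩)
          · exact Or.inl ⟨h1, not_lt.1 h2, not_lt.1 h3⟩
    · rw [Finset.disjoint_left]
      intro c hc hc'
      rw [hn00, Finset.mem_filter] at hc
      rcases Finset.mem_union.1 hc' with h1 | h1
      · exact absurd (Finset.mem_filter.1 h1).2 (not_lt.2 hc.2.1)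
      · exact absurd (Finset.mem_filter.1 h1).2 (not_lt.2 hc.2.2)
  have hI1 := hI.1 i' j hi.le le_rfl (Or.inl hi.ne)
  have hI2 := hI.2 i j' le_rfl hj.le (Or.inr hj.ne')
  rw [← hS1c] at hI1
  have hS12 : (S1 ∩ S2).card ≤ S1.card := Finset.card_le_card Finset.inter_subset_left
  have hS12' : (S1 ∩ S2).card ≤ S2.card := Finset.card_le_card Finset.inter_subset_right
  rcases hI1 with hI1 | ⟨-, hI1⟩
  · rcases hI2 with hI2 | ⟨-, hI2⟩
    · -- both first alternatives
      right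
      have hnfn : nf ⊆ n00 := by
        intro c hc
        rw [hnf, Finset.mem_filter] at hc
        exact Finset.mem_filter.2 ⟨hc.1, hc.2.1⟩
      have h2 : 1 < (n00 \ nf).card := by
        have h3 := Finset.card_sdiff_add_card_eq_card hnfn
        omega
      obtain ⟨c₁, hc₁, c₂, hc₂, hne⟩ := Finset.one_lt_card.1 h2
      have hfr : ∀ c ∈ n00 \ nf, c ∈ C ∧ Free u (NWs u i j ∪ C) σ i' j' G F μ c := by
        intro c hc
        rw [Finset.mem_sdiff, hn00, hnf, Finset.mem_filter, Finset.mem_filter] at hc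
        refine ⟨hc.1.1, ?_⟩
        by_contra h3
        exact hc.2 ⟨hc.1.1, hc.1.2, h3⟩
      refine ⟨⟨c₁, (hfr c₁ hc₁).1, c₂, (hfr c₂ hc₂).1, hne, (hfr c₁ hc₁).2, (hfr c₂ hc₂).2⟩,
        c₀, hc₀.1, hc₀.2, ?_⟩
      by_cases h3 : 1 < full.card
      · left
        obtain ⟨a, ha, b, hb, hab⟩ := Finset.one_lt_card.1 h3
        rw [hfull, Finset.mem_filter] at ha hb
        by_cases h4 : a = c₀
        · exact ⟨b, hb.1, fun h5 => hab (h4.trans h5.symm), hb.2⟩
        · exact ⟨a, ha.1, h4, ha.2⟩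
      · right
        omega
    · -- contradiction
      exfalso
      omega
  · rcases hI2 with hI2 | ⟨-, hI2⟩
    · exfalso
      omega
    · -- both second alternatives
      left
      have hfC : full ⊆ C := Finset.filter_subset _ _
      have hfCc := Finset.card_le_card hfC
      have h1 : full = C := Finset.eq_of_subset_of_card_le hfC (by omega)
      have h2 : rect = out := Finset.eq_of_subset_of_card_le hsubr (by omega)
      apply h.maxσ
      · intro c hc
        rw [← h1, hfull, Finset.mem_filter] at hc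
        exact hc.2
      · intro x hx hx'
        by_contra h3
        have hxm := mem_NWs.1 hx
        have h4 : x ∈ out := by
          rw [hout, Finset.mem_filter]
          exact ⟨mem_NWs.2 ⟨hxm.1.trans hj.le, hi.le.trans hxm.2⟩, hx', h3⟩
        rw [← h2, hrect, Finset.mem_filter] at h4
        exact absurd hxm.1 (not_le.2 h4.2.1)

end Pool.Agent.H49.KL
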