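import Pool.Agent.H44.KL.CDefs

/-!
# Counting for case C, part 1: one path (MP_a7460d_ag, necessity of the class condition)
-/

set_option autoImplicit false

open Pool.Agent.H30.KL Pool.Agent.H44.KL

namespace Pool.Agent.H49.KL

variable {n : ℕ}

/-- the data of case C -/
structure Dat (u v : Equiv.Perm (Fin n)) (i j i' j' : Fin n) (C R G F : Finset (Fin n))
    (σ μ : Fin n → Fin n) : Prop where
  hC : C ⊆ SWs u i j
  hR : R ⊆ NEs u i j
  hi : i' < i
  hj : j < j'
  hσ : Mt u (NWs u i j ∪ C) (NWs u i j ∪ R) σ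
  hL : Ldr u v i' j' G F μ
  hsub : ∀ y ∈ G, μ y ≠ y → y ∈ NWs u i j ∪ C ∧ μ y = σ y

variable {u v : Equiv.Perm (Fin n)} {i j i' j' : Fin n} {C R G F : Finset (Fin n)}
  {σ μ : Fin n → Fin n}

theorem Dat.cj (h : Dat u v i j i' j' C R G F σ μ) {c : Fin n} (hc : c ∈ C) : c ≤ j ∧ u c < i :=
  mem_SWs.1 (h.hC hc)

theorem Dat.rj (h : Dat u v i j i' j' C R G F σ μ) {r : Fin n} (hr : r ∈ R) : j < r ∧ i ≤ u r :=
  mem_NEs.1 (h.hR hr)

theorem Dat.cA {c : Fin n} (hc : c ∈ C) : c ∈ NWs u i j ∪ C := Finset.mem_union_right _ hc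

theorem Dat.cB (h : Dat u v i j i' j' C R G F σ μ) {c : Fin n} (hc : c ∈ C) :
    c ∉ NWs u i j ∪ R := by
  intro h1
  rcases Finset.mem_union.1 h1 with h2 | h2
  · exact absurd (mem_NWs.1 h2).2 (not_le.2 (h.cj hc).2)
  · exact absurd (h.rj h2).1 (not_lt.2 (h.cj hc).1)

theorem Dat.rA (h : Dat u v i j i' j' C R G F σ μ) {r : Fin n} (hr : r ∈ R) :
    r ∉ NWs u i j ∪ C := by
  intro h1
  rcases Finset.mem_union.1 h1 with h2 | h2
  · exact absurd (mem_NWs.1 h2).1 (not_le.2 (h.rj hr).1)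
  · exact absurd (h.rj hr).1 (not_lt.2 (h.cj h2).1)

theorem Dat.enR (h : Dat u v i j i' j' C R G F σ μ) {c : Fin n} (hc : c ∈ C) :
    en (NWs u i j ∪ C) σ c ∈ R := by
  obtain ⟨h1, h2⟩ := en_spec h.hσ (Dat.cA hc) (h.cB hc)
  rcases Finset.mem_union.1 h1 with h3 | h3
  · exact absurd (Finset.mem_union_left _ h3) h2
  · exact h3

theorem Dat.enA (h : Dat u v i j i' j' C R G F σ μ) {c : Fin n} (hc : c ∈ C) :
    en (NWs u i j ∪ C) σ c ∉ NWs u i j ∪ C := h.rA (h.enR hc)

theorem Dat.inner (h : Dat u v i j i' j' C R G F σ μ) {c x : Fin n}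
    (hx : x ∈ pth (NWs u i j ∪ C) σ c) (h1 : x ≠ c) (h2 : x ≠ en (NWs u i j ∪ C) σ c) :
    x ∈ NWs u i j := by
  obtain ⟨h3, -⟩ := pth_sub h.hσ hx h2
  obtain ⟨y, hy, hy1, hy2⟩ := pth_back h.hσ hx h1
  have h4 := h.hσ.mem (pth_sub h.hσ hy hy1).1
  rw [hy2] at h4
  rcases Finset.mem_union.1 h3 with h5 | h5
  · exact h5
  · exact absurd h4 (h.cB h5)

theorem Dat.ne (h : Dat u v i j i' j' C R G F σ μ) {c : Fin n} (hc : c ∈ C) :
    c ≠ en (NWs u i j ∪ C) σ c := by
  intro h1
  exact h.enA hc (h1 ▸ Dat.cA hc)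

theorem Dat.inj (h : Dat u v i j i' j' C R G F σ μ) {c c' x : Fin n} (hc : c ∈ C) (hc' : c' ∈ C)
    (hx : x ∈ pth (NWs u i j ∪ C) σ c) (hx' : x ∈ pth (NWs u i j ∪ C) σ c') : c = c' :=
  pth_disj h.hσ (h.cB hc) (h.cB hc') x hx hx'

/-- a moved point of `G` lies on a path -/
theorem Dat.cover (h : Dat u v i j i' j' C R G F σ μ) {a : Fin n} (ha : a ∈ NWs u i j ∪ C)
    (hne : σ a ≠ a) : ∃ c ∈ C, a ∈ pth (NWs u i j ∪ C) σ c := by
  obtain ⟨c, hc, hcB, h1⟩ := pth_cover h.hσ a ha hne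
  refine ⟨c, ?_, h1⟩
  rcases Finset.mem_union.1 hc with h2 | h2
  · exact absurd (Finset.mem_union_left _ h2) hcB
  · exact h2

/-- points of `G` outside of the paths are fixed -/
theorem Dat.fix (h : Dat u v i j i' j' C R G F σ μ) {y : Fin n} (hy : y ∈ G)
    (hout : ∀ c ∈ C, y ∉ pth (NWs u i j ∪ C) σ c) : μ y = y := by
  by_contra hne
  obtain ⟨h1, h2⟩ := h.hsub y hy hne
  obtain ⟨c, hc, h3⟩ := h.cover h1 (h2 ▸ hne)
  exact hout c hc h3

/-- `μ` restricts to a bijection of a path -/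
theorem Dat.card_eq (h : Dat u v i j i' j' C R G F σ μ) {c : Fin n} (hc : c ∈ C) :
    (G ∩ pth (NWs u i j ∪ C) σ c).card = (F ∩ pth (NWs u i j ∪ C) σ c).card := by
  classical
  have h1 : (G ∩ pth (NWs u i j ∪ C) σ c).image μ = F ∩ pth (NWs u i j ∪ C) σ c := by
    ext b
    rw [Finset.mem_image, Finset.mem_inter]
    constructor
    · rintro ⟨a, ha, rfl⟩
      rw [Finset.mem_inter] at ha
      refine ⟨h.hL.mt.mem ha.1, ?_⟩
      by_cases h2 : μ a = a
      · rw [h2]
        exact ha.2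
      · obtain ⟨h3, h4⟩ := h.hsub a ha.1 h2
        have h5 : a ≠ en (NWs u i j ∪ C) σ c := fun h6 => h.enA hc (h6 ▸ h3)
        rw [h4]
        exact (pth_sub h.hσ ha.2 h5).2.1
    · rintro ⟨hb, hbV⟩
      obtain ⟨a, ha, hab⟩ := h.hL.mt.surj hb
      refine ⟨a, Finset.mem_inter.2 ⟨ha, ?_⟩, hab⟩
      by_cases h2 : μ a = a
      · rw [← h2, hab]
        exact hbV
      · obtain ⟨h3, h4⟩ := h.hsub a ha h2
        rcases pth_pre h.hσ (h.cB hc) h3 (by rw [← h4, hab]; exact hbV) with h5 | h5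
        · exact absurd (h4.trans h5) h2
        · exact h5
  rw [← h1, Finset.card_image_of_injOn]
  intro x hx y hy hxy
  exact h.hL.mt.inj (Finset.mem_inter.1 hx).1 (Finset.mem_inter.1 hy).1 hxy

theorem Dat.G_lt (h : Dat u v i j i' j' C R G F σ μ) {x : Fin n} (hx : x ∈ G) : x ≤ j' :=
  h.hL.hG x hx

theorem Dat.F_le (h : Dat u v i j i' j' C R G F σ μ) {x : Fin n} (hx : x ∈ F) : i' ≤ u x :=
  h.hL.hF x hx

/-- if `G` contains all the points of the path but the last one, and `F` does not contain the first one, the path is full -/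
theorem Dat.full_of (h : Dat u v i j i' j' C R G F σ μ) {c : Fin n} (_ : c ∈ C) (h1 : u c < i')
    (h2 : j' < en (NWs u i j ∪ C) σ c)
    (h3 : ∀ y ∈ pth (NWs u i j ∪ C) σ c, y ≠ en (NWs u i j ∪ C) σ c → y ∈ G) :
    Full u (NWs u i j ∪ C) σ i' j' G μ c := by
  refine ⟨h1, h2, ?_⟩
  have key : ∀ y, y ∈ pth (NWs u i j ∪ C) σ c → y ≠ en (NWs u i j ∪ C) σ c →
      μ y = σ y := by
    intro y
    induction y using WellFoundedLT.induction with
    | ind y ih =>
      intro hy hne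
      by_contra h4
      have hyG := h3 y hy hne
      have h5 : μ y = y := by
        by_contra h6
        exact h4 (h.hsub y hyG h6).2
      have h6 : y ≠ c := by
        intro h7
        have h8 : i' ≤ u y := h.F_le (by have := h.hL.mt.mem hyG; rwa [h5] at this)
        rw [h7] at h8
        exact absurd h1 (not_lt.2 h8)
      obtain ⟨z, hz, hz1, hz2⟩ := pth_back h.hσ hy h6
      have h7 := (pth_sub h.hσ hz hz1).2.2.1
      rw [hz2] at h7
      have h8 := ih z h7 hz hz1
      have h9 : z = y := h.hL.mt.inj (h3 z hz hz1) hyG (by rw [h8, hz2, h5])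
      exact absurd h7 (by rw [h9]; exact lt_irrefl _)
  intro y hy hne
  exact ⟨h3 y hy hne, key y hy hne⟩

/-- if `G` and `F` contain all the points of the path, the path is free -/
theorem Dat.free_of (h : Dat u v i j i' j' C R G F σ μ) {c : Fin n} (hc : c ∈ C) (h1 : i' ≤ u c)
    (h2 : en (NWs u i j ∪ C) σ c ≤ j')
    (h3 : ∀ y ∈ pth (NWs u i j ∪ C) σ c, y ∈ G) (h4 : ∀ y ∈ pth (NWs u i j ∪ C) σ c, y ∈ F) :
    Free u (NWs u i j ∪ C) σ i' j' G F μ c := by
  refine ⟨h1, h2, fun y hy => ⟨h3 y hy, h4 y hy, ?_⟩⟩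
  revert hy
  induction y using WellFoundedGT.induction with
  | ind y ih =>
    intro hy
    by_contra h5
    obtain ⟨h6, h7⟩ := h.hsub y (h3 y hy) h5
    have h8 : y ≠ en (NWs u i j ∪ C) σ c := fun h9 => h.enA hc (h9 ▸ h6)
    obtain ⟨-, h9, h10, -⟩ := pth_sub h.hσ hy h8
    have h11 := ih (σ y) h10 h9
    have h12 : y = σ y := h.hL.mt.inj (h3 y hy) (h3 _ h9) (by rw [h11, h7])
    exact absurd h10 (by rw [← h12]; exact lt_irrefl _)

theorem Dat.memN' (h : Dat u v i j i' j' C R G F σ μ) {c x : Fin n} (hc : c ∈ C)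
    (hx : x ∈ pth (NWs u i j ∪ C) σ c) :
    x ∈ NWs u i' j' ↔ (x = c → i' ≤ u c) ∧ (x = en (NWs u i j ∪ C) σ c → x ≤ j') := by
  have hcr := h.ne hc
  by_cases h1 : x = c
  · rw [mem_NWs, h1]
    constructor
    · rintro ⟨h2, h3⟩
      exact ⟨fun _ => h3, fun _ => h2⟩
    · rintro ⟨h2, -⟩
      exact ⟨((h.cj hc).1.trans_lt h.hj).le, h2 rfl⟩
  · by_cases h2 : x = en (NWs u i j ∪ C) σ c
    · rw [mem_NWs]
      constructor
      · rintro ⟨h3, h4⟩
        exact ⟨fun h5 => absurd h5 h1, fun _ => h3⟩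
      · rintro ⟨-, h3⟩
        refine ⟨h3 h2, ?_⟩
        rw [h2]
        exact h.hi.le.trans (h.rj (h.enR hc)).2
    · have h3 := mem_NWs.1 (h.inner hx h1 h2)
      rw [mem_NWs]
      exact ⟨fun _ => ⟨fun h4 => absurd h4 h1, fun h4 => absurd h4 h2⟩,
        fun _ => ⟨h3.1.trans h.hj.le, h.hi.le.trans h3.2⟩⟩

open Classical in
/-- the inequality for one path -/
theorem Dat.one (h : Dat u v i j i' j' C R G F σ μ) {c : Fin n} (hc : c ∈ C) :
    (G ∩ pth (NWs u i j ∪ C) σ c).card +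
      (if (i' ≤ u c ∧ en (NWs u i j ∪ C) σ c ≤ j') ∧
        ¬ Free u (NWs u i j ∪ C) σ i' j' G F μ c then 1 else 0) ≤
    (NWs u i' j' ∩ pth (NWs u i j ∪ C) σ c).card +
      (if Full u (NWs u i j ∪ C) σ i' j' G μ c then 1 else 0) := by
  set V := pth (NWs u i j ∪ C) σ c with hV
  set r := en (NWs u i j ∪ C) σ c with hr
  have hcV : c ∈ V := self_mem h.hσ c
  have hrV : r ∈ V := en_mem h.hσ c
  have hcr : c ≠ r := h.ne hc
  have hGF := h.card_eq hc
  rw [← hV] at hGF
  have hm := fun x hx => h.memN' hc (x := x) hx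
  by_cases h1 : u c < i'
  · rw [if_neg (fun h2 => absurd h1 (not_lt.2 h2.1.1)), add_zero]
    have hFc : c ∉ F := fun h2 => absurd h1 (not_lt.2 (h.F_le h2))
    by_cases h2 : j' < r
    · -- type 11
      have hGr : r ∉ G := fun h3 => absurd h2 (not_lt.2 (h.G_lt h3))
      have hN : NWs u i' j' ∩ V = (V.erase c).erase r := by
        ext x
        rw [Finset.mem_inter, Finset.mem_erase, Finset.mem_erase]
        constructor
        · rintro ⟨h3, h4⟩
          have h5 := (hm x h4).1 h3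
          exact ⟨fun h6 => absurd (h5.2 h6) (not_le.2 (h6 ▸ h2)), fun h6 => absurd (h5.1 h6) (not_le.2 h1), h4⟩
        · rintro ⟨h3, h4, h5⟩
          exact ⟨(hm x h5).2 ⟨fun h6 => absurd h6 h4, fun h6 => absurd h6 h3⟩, h5⟩
      have hG : G ∩ V ⊆ V.erase r := by
        intro x hx
        rw [Finset.mem_inter] at hx
        exact Finset.mem_erase.2 ⟨fun h3 => hGr (h3 ▸ hx.1), hx.2⟩
      have hc1 : (V.erase r).card + 1 = V.card := Finset.card_erase_add_one hrV
      have hc2 : ((V.erase c).erase r).card + 1 = (V.erase c).card :=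
        Finset.card_erase_add_one (Finset.mem_erase.2 ⟨hcr.symm, hrV⟩)
      have hc3 : (V.erase c).card + 1 = V.card := Finset.card_erase_add_one hcV
      rw [hN]
      by_cases h3 : G ∩ V = V.erase r
      · have h4 : Full u (NWs u i j ∪ C) σ i' j' G μ c := by
          refine h.full_of hc h1 h2 fun y hy hne => ?_
          have h5 : y ∈ G ∩ V := by
            rw [h3]
            exact Finset.mem_erase.2 ⟨hne, hy⟩
          exact (Finset.mem_inter.1 h5).1
        rw [if_pos h4, h3]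
        omega
      · have h4 := Finset.card_lt_card (lt_of_le_of_ne hG h3)
        split_ifs <;> omega
    · -- type 10
      have hN : NWs u i' j' ∩ V = V.erase c := by
        ext x
        rw [Finset.mem_inter, Finset.mem_erase]
        constructor
        · rintro ⟨h3, h4⟩
          have h5 := (hm x h4).1 h3
          exact ⟨fun h6 => absurd (h5.1 h6) (not_le.2 h1), h4⟩
        · rintro ⟨h4, h5⟩
          exact ⟨(hm x h5).2 ⟨fun h6 => absurd h6 h4, fun h6 => h6 ▸ not_lt.1 h2⟩, h5⟩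
      have hF : F ∩ V ⊆ V.erase c := by
        intro x hx
        rw [Finset.mem_inter] at hx
        exact Finset.mem_erase.2 ⟨fun h3 => hFc (h3 ▸ hx.1), hx.2⟩
      have h3 := Finset.card_le_card hF
      rw [hN]
      split_ifs <;> omega
  · have h1' : i' ≤ u c := not_lt.1 h1
    by_cases h2 : j' < r
    · -- type 01
      rw [if_neg (fun h3 => absurd h2 (not_lt.2 h3.1.2)), add_zero]
      have hGr : r ∉ G := fun h3 => absurd h2 (not_lt.2 (h.G_lt h3))
      have hN : NWs u i' j' ∩ V = V.erase r := by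
        ext x
        rw [Finset.mem_inter, Finset.mem_erase]
        constructor
        · rintro ⟨h3, h4⟩
          have h5 := (hm x h4).1 h3
          exact ⟨fun h6 => absurd (h5.2 h6) (not_le.2 (h6 ▸ h2)), h4⟩
        · rintro ⟨h4, h5⟩
          exact ⟨(hm x h5).2 ⟨fun _ => h1', fun h6 => absurd h6 h4⟩, h5⟩
      have hG : G ∩ V ⊆ V.erase r := by
        intro x hx
        rw [Finset.mem_inter] at hx
        exact Finset.mem_erase.2 ⟨fun h3 => hGr (h3 ▸ hx.1), hx.2⟩
      have h3 := Finset.card_le_card hG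
      rw [hN]
      split_ifs <;> omega
    · -- type 00
      have h2' : r ≤ j' := not_lt.1 h2
      have hN : NWs u i' j' ∩ V = V := by
        rw [Finset.inter_eq_right]
        intro x hx
        exact (hm x hx).2 ⟨fun _ => h1', fun h6 => h6 ▸ h2'⟩
      rw [hN]
      have hGV : G ∩ V ⊆ V := Finset.inter_subset_right
      have hFV : F ∩ V ⊆ V := Finset.inter_subset_right
      by_cases h3 : G ∩ V = V
      · have h4 : F ∩ V = V := by
          apply Finset.eq_of_subset_of_card_le hFV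
          rw [← hGF, h3]
        have h5 : Free u (NWs u i j ∪ C) σ i' j' G F μ c := by
          refine h.free_of hc h1' h2' (fun y hy => ?_) fun y hy => ?_
          · exact (Finset.mem_inter.1 (show y ∈ G ∩ V by rw [h3]; exact hy)).1
          · exact (Finset.mem_inter.1 (show y ∈ F ∩ V by rw [h4]; exact hy)).1
        rw [if_neg (fun h6 => h6.2 h5), h3]
        omega
      · have h4 := Finset.card_lt_card (lt_of_le_of_ne hGV h3)
        split_ifs <;> omega

end Pool.Agent.H49.KL
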